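import Pool.Agent.Helper5.EL.Mpm
import Pool.Agent.Helper68.EL.MLower

/-!
# Project EL, module EL-B: `mpm`
-/

set_option autoImplicit false

namespace Pool.Agent.Helper3.EL

open Finset Pool.Agent.Lead.TB Pool.Agent.Lead.TB.Halves Pool.Agent.Helper84.TL

theorem mpm {n j t q k : ℕ} (hj : 1 ≤ j) (G : Gr n) (hG : Reg j G) (h : t * j + q = 2 ^ k) :
    KK k ^ n ≤ ((pm G).card : ℝ) ^ (2 ^ k) *
      ((t.factorial : ℝ) ^ (j - 1) * ((t + q).factorial : ℝ)) ^ n :=
  mpm_of (fun _ _ E _ _ row col hE => mlower E row col hE) hj G hG h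

end Pool.Agent.Helper3.EL
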