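import Pool.Agent.Helper3.EL.Defs

/-!
# Project EL, module EL-B: blowing up a regular graph
-/

set_option autoImplicit false

namespace Pool.Agent.Helper3.EL

open Finset Pool.Agent.Lead.TB Pool.Agent.Lead.TB.Halves Pool.Agent.Helper84.TL

namespace Mpm

/-- A regular bipartite graph has a perfect matching. -/
theorem exists_matching {n j : ℕ} (hj : 1 ≤ j) (G : Gr n) (hG : Reg j G) :
    ∃ s : Equiv.Perm (Fin n), ∀ r, s r ∈ G r := by
  obtain ⟨h1, h2⟩ := hG
  have hall : ∀ s : Finset (Fin n), s.card ≤ (s.biUnion G).card := by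
    intro s
    have h3 : s.card * j ≤ (s.biUnion G).card * j := by
      have h4 : s.card * j = ∑ r ∈ s, (G r).card := by
        rw [sum_congr rfl fun r _ => h1 r, sum_const, smul_eq_mul]
      have h5 : (s.biUnion G).card * j =
          ∑ c ∈ s.biUnion G, (univ.filter fun r => c ∈ G r).card := by
        rw [sum_congr rfl fun c _ => h2 c, sum_const, smul_eq_mul]
      rw [h4, h5]
      have h6 : ∑ r ∈ s, (G r).card = ∑ r ∈ s, ((s.biUnion G).filter fun c => c ∈ G r).card := by
        refine sum_congr rfl fun r hr => ?_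
        congr 1
        ext c
        simp only [mem_filter, mem_biUnion]
        exact ⟨fun h => ⟨⟨r, hr, h⟩, h⟩, fun h => h.2⟩
      rw [h6]
      have h7 : ∑ r ∈ s, ((s.biUnion G).filter fun c => c ∈ G r).card =
          ∑ c ∈ s.biUnion G, (s.filter fun r => c ∈ G r).card := by
        simp only [card_filter]
        exact sum_comm
      rw [h7]
      exact sum_le_sum fun c _ => card_le_card (filter_subset_filter _ (subset_univ _))
    exact Nat.le_of_mul_le_mul_right h3 (by omega)
  obtain ⟨f, hf, hf2⟩ := (Finset.all_card_le_biUnion_card_iff_exists_injective G).1 hall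
  exact ⟨Equiv.ofBijective f (Finite.injective_iff_bijective.1 hf), hf2⟩

/-- The multiplicities of the blow-up. -/
def mu {n : ℕ} (G : Gr n) (s : Equiv.Perm (Fin n)) (t q : ℕ) (p : Fin n × Fin n) : ℕ :=
  if p.2 ∈ G p.1 then t + (if s p.1 = p.2 then q else 0) else 0

/-- The edges of the blow-up. -/
abbrev EE {n : ℕ} (G : Gr n) (s : Equiv.Perm (Fin n)) (t q : ℕ) : Type :=
  Σ p : Fin n × Fin n, Fin (mu G s t q p)

theorem sum_row {n j t q : ℕ} (G : Gr n) (hG : Reg j G) (s : Equiv.Perm (Fin n))
    (hs : ∀ r, s r ∈ G r) (r : Fin n) : ∑ c, mu G s t q (r, c) = t * j + q := by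
  simp only [mu]
  rw [← sum_filter, filter_mem_eq_inter, univ_inter, sum_add_distrib, sum_const, hG.1 r,
    sum_ite_eq, if_pos (hs r), smul_eq_mul, mul_comm]

theorem sum_col {n j t q : ℕ} (G : Gr n) (hG : Reg j G) (s : Equiv.Perm (Fin n))
    (hs : ∀ r, s r ∈ G r) (c : Fin n) : ∑ r, mu G s t q (r, c) = t * j + q := by
  simp only [mu]
  rw [← sum_filter, sum_add_distrib, sum_const, hG.2 c, smul_eq_mul, mul_comm]
  congr 1
  rw [← sum_filter, filter_filter]
  have h : (univ.filter fun r => c ∈ G r ∧ s r = c) = {s.symm c} := by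
    ext r
    simp only [mem_filter, mem_univ, true_and, mem_singleton]
    constructor
    · rintro ⟨-, h⟩
      rw [← h, Equiv.symm_apply_apply]
    · rintro rfl
      refine ⟨?_, Equiv.apply_symm_apply _ _⟩
      have := hs (s.symm c)
      rwa [Equiv.apply_symm_apply] at this
  rw [h, sum_singleton]

theorem mreg {n j t q : ℕ} (G : Gr n) (hG : Reg j G) (s : Equiv.Perm (Fin n))
    (hs : ∀ r, s r ∈ G r) :
    MReg (EE G s t q) (fun e => e.1.1) (fun e => e.1.2) (t * j + q) := by
  constructor
  · intro r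
    rw [card_filter, Fintype.sum_sigma, Fintype.sum_prod_type]
    rw [sum_eq_single r]
    · simp only [if_true, sum_const, card_univ, Fintype.card_fin, smul_eq_mul, mul_one]
      exact sum_row G hG s hs r
    · intro r' _ h
      simp [h]
    · intro h
      exact absurd (mem_univ r) h
  · intro c
    rw [card_filter, Fintype.sum_sigma, Fintype.sum_prod_type]
    have h1 : ∀ r : Fin n, (∑ c' : Fin n, ∑ _x : Fin (mu G s t q (r, c')),
        if c' = c then 1 else 0) = mu G s t q (r, c) := by
      intro r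
      rw [sum_eq_single c]
      · simp
      · intro c' _ h
        simp [h]
      · intro h
        exact absurd (mem_univ c) h
    rw [sum_congr rfl fun r _ => h1 r]
    exact sum_col G hG s hs c

theorem prod_mu {n j t q : ℕ} (G : Gr n) (hG : Reg j G) (s : Equiv.Perm (Fin n))
    (hs : ∀ r, s r ∈ G r) : ∏ p : Fin n × Fin n, (mu G s t q p).factorial =
      (t.factorial ^ (j - 1) * (t + q).factorial) ^ n := by
  rw [Fintype.prod_prod_type]
  have h1 : ∀ r : Fin n, ∏ c : Fin n, (mu G s t q (r, c)).factorial =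
      t.factorial ^ (j - 1) * (t + q).factorial := by
    intro r
    have h2 : ∏ c : Fin n, (mu G s t q (r, c)).factorial =
        ∏ c ∈ G r, (t + if s r = c then q else 0).factorial := by
      rw [← prod_subset (subset_univ (G r))]
      · refine prod_congr rfl fun c hc => ?_
        simp only [mu, if_pos hc]
      · intro c _ hc
        simp only [mu, if_neg hc, Nat.factorial_zero]
    rw [h2, ← mul_prod_erase _ _ (hs r)]
    have h3 : ∏ c ∈ (G r).erase (s r), (t + if s r = c then q else 0).factorial =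
        t.factorial ^ (j - 1) := by
      rw [prod_congr rfl (g := fun _ => t.factorial)]
      · rw [prod_const, card_erase_of_mem (hs r), hG.1 r]
      · intro c hc
        rw [if_neg (fun h => (mem_erase.1 hc).1 h.symm), add_zero]
    rw [h3, if_pos rfl, mul_comm]
  rw [prod_congr rfl fun r _ => h1 r, prod_const, card_univ, Fintype.card_fin]

/-- The permutations of the colours. -/
theorem exists_perms {n d : ℕ} (E : Type) [Fintype E] [DecidableEq E] (row col : E → Fin n)
    (hE : MReg E row col d) (f : E → Fin d) (hf : f ∈ mfac (Fin d) E row col) :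
    ∃ M : Fin d → Equiv.Perm (Fin n), (∀ e, M (f e) (row e) = col e) ∧
      ∀ i r, ∃ e, row e = r ∧ col e = M i r := by
  simp only [mfac, mem_filter, mem_univ, true_and] at hf
  have h1 : ∀ (i : Fin d) (r : Fin n), ∃ e, row e = r ∧ f e = i := by
    intro i r
    have h2 : (univ.filter fun e => row e = r).image f = univ := by
      rw [← card_eq_iff_eq_univ, card_image_of_injOn, hE.1 r, Fintype.card_fin]
      intro e he e' he' hee
      by_contra hne
      have he1 : row e = r := by simpa using he
      have he2 : row e' = r := by simpa using he'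
      exact hf e e' hne (Or.inl (by rw [he1, he2])) hee
    have h3 : i ∈ (univ.filter fun e => row e = r).image f := by rw [h2]; exact mem_univ _
    simp only [mem_image, mem_filter, mem_univ, true_and] at h3
    exact h3
  choose c hc1 hc2 using h1
  have hinj : ∀ i, Function.Injective fun r => col (c i r) := by
    intro i r r' h
    have h4 : c i r = c i r' := by
      by_contra hne
      exact hf _ _ hne (Or.inr h) (by rw [hc2, hc2])
    rw [← hc1 i r, ← hc1 i r', h4]
  refine ⟨fun i => Equiv.ofBijective _ (Finite.injective_iff_bijective.1 (hinj i)), ?_, ?_⟩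
  · intro e
    show col (c (f e) (row e)) = col e
    have h5 : c (f e) (row e) = e := by
      by_contra hne
      exact hf _ _ hne (Or.inl (hc1 _ _)) (hc2 _ _)
    rw [h5]
  · intro i r
    exact ⟨c i r, hc1 i r, rfl⟩

/-- The number of injections into a set of the same size. -/
theorem card_inj {d m : ℕ} (S : Finset (Fin d)) :
    (univ.filter fun g : Fin m → Fin d => Function.Injective g ∧ ∀ x, g x ∈ S).card ≤
      S.card.descFactorial m := by
  have h1 : Fintype.card (Fin m ↪ S) = S.card.descFactorial m := by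
    rw [Fintype.card_embedding_eq, Fintype.card_coe, Fintype.card_fin]
  rw [← h1, ← card_univ]
  refine card_le_card_of_surjOn (fun φ : Fin m ↪ S => fun x => ((φ x : S) : Fin d)) ?_
  intro g hg
  have hg' : Function.Injective g ∧ ∀ x, g x ∈ S := by simpa using hg
  refine ⟨⟨fun x => ⟨g x, hg'.2 x⟩, fun x y h => hg'.1 (Subtype.ext_iff.1 h)⟩, by simp, rfl⟩

theorem card_fibre {n j t q d : ℕ} (hd : t * j + q = d) (G : Gr n) (hG : Reg j G)
    (s : Equiv.Perm (Fin n)) (hs : ∀ r, s r ∈ G r) (M : Fin d → Equiv.Perm (Fin n)) :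
    ((mfac (Fin d) (EE G s t q) (fun e => e.1.1) (fun e => e.1.2)).filter
      fun f => ∀ e, M (f e) e.1.1 = e.1.2).card ≤ ∏ p : Fin n × Fin n, (mu G s t q p).factorial := by
  classical
  set S : Fin n × Fin n → Finset (Fin d) := fun p => univ.filter fun i => M i p.1 = p.2 with hS
  rcases eq_or_ne ((mfac (Fin d) (EE G s t q) (fun e => e.1.1) (fun e => e.1.2)).filter
      fun f => ∀ e, M (f e) e.1.1 = e.1.2) ∅ with h0 | h0
  · rw [h0, card_empty]; exact Nat.zero_le _
  obtain ⟨f0, hf0⟩ := nonempty_iff_ne_empty.2 h0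
  simp only [mfac, mem_filter, mem_univ, true_and] at hf0
  have hmem : ∀ f : EE G s t q → Fin d, (∀ e, M (f e) e.1.1 = e.1.2) →
      ∀ p x, f ⟨p, x⟩ ∈ S p := by
    intro f hf p x
    simp only [hS, mem_filter, mem_univ, true_and]
    exact hf ⟨p, x⟩
  have hinj : ∀ f : EE G s t q → Fin d, (∀ e e' : EE G s t q, e ≠ e' →
      (e.1.1 = e'.1.1 ∨ e.1.2 = e'.1.2) → f e ≠ f e') →
      ∀ p, Function.Injective fun x => f ⟨p, x⟩ := by
    intro f hf p x y hxy
    by_contra hne
    refine hf ⟨p, x⟩ ⟨p, y⟩ (fun h => hne ?_) (Or.inl rfl) hxy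
    simpa using h
  have hle : ∀ p, mu G s t q p ≤ (S p).card := by
    intro p
    have h1 : (univ.image fun x : Fin (mu G s t q p) => f0 ⟨p, x⟩) ⊆ S p := by
      intro i hi
      obtain ⟨x, -, rfl⟩ := mem_image.1 hi
      exact hmem f0 hf0.2 p x
    have h2 := card_le_card h1
    rwa [card_image_of_injective _ (hinj f0 hf0.1 p), card_univ, Fintype.card_fin] at h2
  have hsum : ∀ r, ∑ c, (S (r, c)).card = d := by
    intro r
    have h1 := card_eq_sum_card_fiberwise (f := fun i : Fin d => M i r) (s := univ)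
      (t := (univ : Finset (Fin n))) (fun _ _ => mem_univ _)
    rw [card_univ, Fintype.card_fin] at h1
    exact h1.symm
  have heq : ∀ p, mu G s t q p = (S p).card := by
    rintro ⟨r, c⟩
    by_contra hne
    have hlt : mu G s t q (r, c) < (S (r, c)).card := lt_of_le_of_ne (hle (r, c)) hne
    have h1 : ∑ c, mu G s t q (r, c) < ∑ c, (S (r, c)).card :=
      sum_lt_sum (fun c _ => hle (r, c)) ⟨c, mem_univ _, hlt⟩
    rw [hsum, sum_row G hG s hs r, hd] at h1
    exact lt_irrefl _ h1
  have h1 : ((mfac (Fin d) (EE G s t q) (fun e => e.1.1) (fun e => e.1.2)).filter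
      fun f => ∀ e, M (f e) e.1.1 = e.1.2).card ≤
      (Fintype.piFinset fun p : Fin n × Fin n => univ.filter
        fun g : Fin (mu G s t q p) → Fin d => Function.Injective g ∧ ∀ x, g x ∈ S p).card := by
    refine card_le_card_of_injOn (fun f p x => f ⟨p, x⟩) ?_ ?_
    · intro f hf
      rw [mem_coe] at hf ⊢
      simp only [mfac, mem_filter, mem_univ, true_and] at hf
      rw [Fintype.mem_piFinset]
      intro p
      simp only [mem_filter, mem_univ, true_and]
      exact ⟨hinj f hf.1 p, hmem f hf.2 p⟩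
    · intro f _ f' _ h
      funext e
      obtain ⟨p, x⟩ := e
      exact congrFun (congrFun h p) x
  refine h1.trans ?_
  rw [Fintype.card_piFinset]
  refine prod_le_prod' fun p _ => ?_
  refine (card_inj (S p)).trans ?_
  rw [← heq p, Nat.descFactorial_self]

theorem card_mfac {n j t q d : ℕ} (hd : t * j + q = d) (G : Gr n) (hG : Reg j G)
    (s : Equiv.Perm (Fin n)) (hs : ∀ r, s r ∈ G r) :
    (mfac (Fin d) (EE G s t q) (fun e => e.1.1) (fun e => e.1.2)).card ≤
      (∏ p : Fin n × Fin n, (mu G s t q p).factorial) * (pm G).card ^ d := by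
  classical
  have hreg := mreg (t := t) (q := q) G hG s hs
  rw [hd] at hreg
  have hex : ∀ f : EE G s t q → Fin d, ∃ M : Fin d → Equiv.Perm (Fin n),
      f ∈ mfac (Fin d) (EE G s t q) (fun e => e.1.1) (fun e => e.1.2) →
      (∀ e, M (f e) e.1.1 = e.1.2) ∧ ∀ i r, ∃ e : EE G s t q, e.1.1 = r ∧ e.1.2 = M i r := by
    intro f
    by_cases hf : f ∈ mfac (Fin d) (EE G s t q) (fun e => e.1.1) (fun e => e.1.2)
    · obtain ⟨M, hM⟩ := exists_perms _ _ _ hreg f hf
      exact ⟨M, fun _ => hM⟩
    · exact ⟨fun _ => 1, fun h => absurd h hf⟩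
  choose Φ hΦ using hex
  have h1 := card_le_mul_card_image (f := Φ)
    (mfac (Fin d) (EE G s t q) (fun e => e.1.1) (fun e => e.1.2))
    (∏ p : Fin n × Fin n, (mu G s t q p).factorial) (by
      intro M _
      refine le_trans (card_le_card ?_) (card_fibre hd G hG s hs M)
      intro f hf
      obtain ⟨hf1, hf2⟩ := mem_filter.1 hf
      refine mem_filter.2 ⟨hf1, ?_⟩
      rw [← hf2]
      exact (hΦ f hf1).1)
  refine h1.trans (Nat.mul_le_mul_left _ ?_)
  have h2 : (Fintype.piFinset fun _ : Fin d => pm G).card = (pm G).card ^ d := by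
    rw [Fintype.card_piFinset, prod_const, card_univ, Fintype.card_fin]
  rw [← h2]
  refine card_le_card ?_
  intro M hM
  obtain ⟨f, hf, rfl⟩ := mem_image.1 hM
  rw [Fintype.mem_piFinset]
  intro i
  simp only [pm, mem_filter, mem_univ, true_and]
  intro r
  obtain ⟨e, he1, he2⟩ := (hΦ f hf).2 i r
  obtain ⟨p, x⟩ := e
  have hx : 0 < mu G s t q p := lt_of_le_of_lt (Nat.zero_le _) x.2
  have hp : p.2 ∈ G p.1 := by
    by_contra h
    rw [mu, if_neg h] at hx
    exact lt_irrefl _ hx
  simp only at he1 he2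
  rw [← he2, ← he1]
  exact hp

end Mpm

theorem mpm_of
    (hml : ∀ (n k : ℕ) (E : Type) [Fintype E] [DecidableEq E] (row col : E → Fin n),
      MReg E row col (2 ^ k) → KK k ^ n ≤ ((mfac (Fin (2 ^ k)) E row col).card : ℝ))
    {n j t q k : ℕ} (hj : 1 ≤ j) (G : Gr n) (hG : Reg j G) (h : t * j + q = 2 ^ k) :
    KK k ^ n ≤ ((pm G).card : ℝ) ^ (2 ^ k) *
      ((t.factorial : ℝ) ^ (j - 1) * ((t + q).factorial : ℝ)) ^ n := by
  obtain ⟨s, hs⟩ := Mpm.exists_matching hj G hG
  have hreg := Mpm.mreg (t := t) (q := q) G hG s hs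
  rw [h] at hreg
  refine (hml n k _ _ _ hreg).trans ?_
  have h1 := Mpm.card_mfac h G hG s hs
  rw [Mpm.prod_mu G hG s hs] at h1
  rw [mul_comm]
  exact_mod_cast h1

end Pool.Agent.Helper3.EL
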